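import Mathlib

/-!
# The theorem of Baer and Suzuki, after Alperin and Lyons
-/

set_option autoImplicit false

namespace Pool.Agent.H8.SNZ

/-- the normaliser step -/
theorem exists_normalizing {M : Type*} [Group M] [Finite M] {p : ℕ} [Fact p.Prime] (E : Set M)
    (h2 : ∀ g : M, ∀ x ∈ E, g * x * g⁻¹ ∈ E) (S T : Subgroup M) (hS : IsPGroup p S)
    (hne : ∃ x ∈ E, x ∈ S ∧ x ∉ T) :
    ∃ x ∈ E, x ∈ S ∧ x ∉ T ∧ ∀ d ∈ E, d ∈ S → d ∈ T → (x * d * x⁻¹ ∈ T ∧ x⁻¹ * d * x ∈ T) := by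
  classical
  -- a maximal subgroup of `S` containing `S ⊓ T` whose elements of `E` are in `T`
  set F : Set (Subgroup M) := {K | S ⊓ T ≤ K ∧ K ≤ S ∧ ∀ d ∈ E, d ∈ K → d ∈ T} with hF
  have hFf : F.Finite := Set.toFinite F
  have hF0 : (S ⊓ T) ∈ F := ⟨le_refl _, inf_le_left, fun d _ hd => (Subgroup.mem_inf.1 hd).2⟩
  obtain ⟨K, hKmax⟩ := hFf.exists_maximal ⟨_, hF0⟩
  obtain ⟨hK1, hK2, hK3⟩ := hKmax.1
  -- `K ≠ S`
  obtain ⟨x0, hx0E, hx0S, hx0T⟩ := hne
  have hKS : K < S := lt_of_le_of_ne hK2 (fun h => hx0T (hK3 x0 hx0E (h ▸ hx0S)))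
  -- the normaliser condition in `S`
  have hnil : Group.IsNilpotent S := IsPGroup.isNilpotent hS
  have hnc : NormalizerCondition S := Group.normalizerCondition_of_isNilpotent
  have hlt : K.subgroupOf S < ⊤ := by
    refine lt_top_iff_ne_top.2 fun h => ?_
    rw [Subgroup.subgroupOf_eq_top] at h
    exact absurd (le_antisymm hK2 h) (ne_of_lt hKS)
  have h1 := hnc (K.subgroupOf S) hlt
  -- the subgroup `K' = N_S(K)` of `M`
  set K' : Subgroup M := (Subgroup.normalizer (K.subgroupOf S : Set S)).map S.subtype with hK'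
  have hKK' : K < K' := by
    have h4 : (K.subgroupOf S).map S.subtype < K' := by
      rw [hK']
      exact (Subgroup.map_lt_map_iff_of_injective (Subgroup.subtype_injective S)).2 h1
    rwa [Subgroup.subgroupOf_map_subtype, inf_eq_left.2 hK2] at h4
  have hK'S : K' ≤ S := by
    rw [hK']
    exact Subgroup.map_subtype_le _
  have hnot : K' ∉ F := fun h => by
    exact absurd (hKmax.2 h hKK'.le) (not_le_of_gt hKK')
  have hex : ∃ x ∈ E, x ∈ K' ∧ x ∉ T := by
    by_contra hcon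
    push Not at hcon
    exact hnot ⟨hK1.trans hKK'.le, hK'S, hcon⟩
  obtain ⟨x, hxE, hxK', hxT⟩ := hex
  have hxS : x ∈ S := hK'S hxK'
  have hnorm : ∀ d ∈ K, x * d * x⁻¹ ∈ K ∧ x⁻¹ * d * x ∈ K := by
    intro d hd
    rw [hK', Subgroup.mem_map] at hxK'
    obtain ⟨y, hy, hyx⟩ := hxK'
    have hyx' : (y : M) = x := hyx
    rw [Subgroup.mem_normalizer_iff] at hy
    have h5 := hy ⟨d, hK2 hd⟩
    constructor
    · have h6 := h5.1 (Subgroup.mem_subgroupOf.2 hd)
      have h7 := Subgroup.mem_subgroupOf.1 h6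
      simpa [hyx'] using h7
    · have h8 := (hy (y⁻¹ * ⟨d, hK2 hd⟩ * y)).2
      have h9 : y * (y⁻¹ * (⟨d, hK2 hd⟩ : S) * y) * y⁻¹ = ⟨d, hK2 hd⟩ := by group
      rw [h9] at h8
      have h10 := Subgroup.mem_subgroupOf.1 (h8 (Subgroup.mem_subgroupOf.2 hd))
      simpa [hyx'] using h10
  refine ⟨x, hxE, hxS, hxT, fun d hdE hdS hdT => ?_⟩
  have hdK : d ∈ K := hK1 (Subgroup.mem_inf.2 ⟨hdS, hdT⟩)
  have h11 := hnorm d hdK
  refine ⟨hK3 _ (h2 x d hdE) h11.1, hK3 _ ?_ h11.2⟩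
  have h12 := h2 x⁻¹ d hdE
  rwa [inv_inv] at h12

/-- All Sylow subgroups contain the same elements of `E`. -/
theorem sylow_inter_eq {M : Type*} [Group M] [Finite M] {p : ℕ} [Fact p.Prime] (E : Set M)
    (h2 : ∀ g : M, ∀ x ∈ E, g * x * g⁻¹ ∈ E)
    (h3 : ∀ x ∈ E, ∀ y ∈ E, IsPGroup p (Subgroup.closure ({x, y} : Set M))) :
    ∀ n : ℕ, ∀ S T : Sylow p M, Nat.card M ≤ n + (E ∩ (S : Set M) ∩ (T : Set M)).ncard →
      E ∩ (S : Set M) = E ∩ (T : Set M) := by
  classical
  have hfin : ∀ A : Set M, A.Finite := fun A => Set.toFinite A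
  -- the sets `E ∩ S` and `E ∩ T` have the same number of elements
  have hcard : ∀ S T : Sylow p M, (E ∩ (S : Set M)).ncard = (E ∩ (T : Set M)).ncard := by
    have hle : ∀ S T : Sylow p M, (E ∩ (S : Set M)).ncard ≤ (E ∩ (T : Set M)).ncard := by
      intro S T
      obtain ⟨g, hg⟩ := MulAction.exists_smul_eq M S T
      refine Set.ncard_le_ncard_of_injOn (fun x => g * x * g⁻¹) ?_ ?_ (hfin _)
      · intro x hx
        refine ⟨h2 g x hx.1, ?_⟩
        show g * x * g⁻¹ ∈ (T : Set M)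
        rw [← hg]
        show g * x * g⁻¹ ∈ ((g • S : Sylow p M) : Subgroup M)
        rw [Sylow.coe_subgroup_smul]
        refine ⟨x, hx.2, ?_⟩
        simp [MulAut.conj_apply]
      · intro a _ b _ hab
        have h : g * a * g⁻¹ = g * b * g⁻¹ := hab
        exact mul_left_cancel (mul_right_cancel h)
    exact fun S T => le_antisymm (hle S T) (hle T S)
  have hsub : ∀ S T : Sylow p M, E ∩ (S : Set M) ≠ E ∩ (T : Set M) → ∃ x ∈ E, x ∈ (S : Subgroup M) ∧
      x ∉ (T : Subgroup M) := by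
    intro S T hne
    by_contra hcon
    push Not at hcon
    refine hne (Set.eq_of_subset_of_ncard_le (fun x hx => ⟨hx.1, hcon x hx.1 hx.2⟩)
      (hcard T S).le (hfin _))
  intro n
  induction n with
  | zero =>
    intro S T h0
    have h4 : (E ∩ (S : Set M) ∩ (T : Set M)) = Set.univ := by
      refine Set.eq_univ_of_forall fun x => ?_
      have h5 : (Set.univ : Set M).ncard ≤ (E ∩ (S : Set M) ∩ (T : Set M)).ncard := by
        rw [Set.ncard_univ]; omega
      have h6 := Set.eq_of_subset_of_ncard_le (Set.subset_univ _) h5 (hfin _)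
      rw [h6]; exact Set.mem_univ x
    have h7 : ∀ x, x ∈ E ∩ (S : Set M) ∩ (T : Set M) := fun x => by rw [h4]; exact Set.mem_univ x
    ext x
    exact ⟨fun _ => ⟨(h7 x).1.1, (h7 x).2⟩, fun _ => (h7 x).1⟩
  | succ n ih =>
    intro S T hn
    by_contra hne
    obtain ⟨x, hxE, hxS, hxT, hxn⟩ := exists_normalizing E h2 S T S.isPGroup' (hsub S T hne)
    obtain ⟨y, hyE, hyT, hyS, hyn⟩ := exists_normalizing E h2 T S T.isPGroup' (hsub T S (Ne.symm hne))
    set Δ : Set M := E ∩ (S : Set M) ∩ (T : Set M) with hΔ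
    set D : Subgroup M := Subgroup.closure Δ with hD
    have hDS : D ≤ (S : Subgroup M) := by
      rw [hD, Subgroup.closure_le]
      exact fun d hd => hd.1.2
    have hDp : IsPGroup p D := S.isPGroup'.to_le hDS
    -- `x` and `y` normalise `D`
    have hxΔ : ∀ d ∈ Δ, x * d * x⁻¹ ∈ Δ ∧ x⁻¹ * d * x ∈ Δ := by
      intro d hd
      obtain ⟨h4, h5⟩ := hxn d hd.1.1 hd.1.2 hd.2
      refine ⟨⟨⟨h2 x d hd.1.1, ?_⟩, h4⟩, ⟨⟨?_, ?_⟩, h5⟩⟩
      · exact (S : Subgroup M).mul_mem ((S : Subgroup M).mul_mem hxS hd.1.2)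
          ((S : Subgroup M).inv_mem hxS)
      · have h12 := h2 x⁻¹ d hd.1.1
        rwa [inv_inv] at h12
      · exact (S : Subgroup M).mul_mem ((S : Subgroup M).mul_mem ((S : Subgroup M).inv_mem hxS)
          hd.1.2) hxS
    have hyΔ : ∀ d ∈ Δ, y * d * y⁻¹ ∈ Δ ∧ y⁻¹ * d * y ∈ Δ := by
      intro d hd
      obtain ⟨h4, h5⟩ := hyn d hd.1.1 hd.2 hd.1.2
      refine ⟨⟨⟨h2 y d hd.1.1, h4⟩, ?_⟩, ⟨⟨?_, h5⟩, ?_⟩⟩
      · exact (T : Subgroup M).mul_mem ((T : Subgroup M).mul_mem hyT hd.2)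
          ((T : Subgroup M).inv_mem hyT)
      · have h12 := h2 y⁻¹ d hd.1.1
        rwa [inv_inv] at h12
      · exact (T : Subgroup M).mul_mem ((T : Subgroup M).mul_mem ((T : Subgroup M).inv_mem hyT)
          hd.2) hyT
    have hnorm : ∀ w : M, (∀ d ∈ Δ, w * d * w⁻¹ ∈ Δ ∧ w⁻¹ * d * w ∈ Δ) →
        w ∈ Subgroup.normalizer (D : Set M) := by
      intro w hw
      have h4 : ∀ v : M, (∀ d ∈ Δ, v * d * v⁻¹ ∈ Δ) → ∀ d ∈ D, v * d * v⁻¹ ∈ D := by
        intro v hv d hd
        rw [hD] at hd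
        induction hd using Subgroup.closure_induction with
        | mem a ha => exact Subgroup.subset_closure (hv a ha)
        | one => rw [mul_one, mul_inv_cancel]; exact D.one_mem
        | mul a b _ _ iha ihb =>
          have h5 : v * (a * b) * v⁻¹ = (v * a * v⁻¹) * (v * b * v⁻¹) := by group
          rw [h5]; exact D.mul_mem iha ihb
        | inv a _ iha =>
          have h5 : v * a⁻¹ * v⁻¹ = (v * a * v⁻¹)⁻¹ := by group
          rw [h5]; exact D.inv_mem iha
      rw [Subgroup.mem_normalizer_iff]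
      intro d
      constructor
      · exact h4 w (fun d hd => (hw d hd).1) d
      · intro h5
        have h6 := h4 w⁻¹ (fun d hd => by
          have h7 := (hw d hd).2
          rwa [inv_inv]) _ h5
        have h8 : w⁻¹ * (w * d * w⁻¹) * w⁻¹⁻¹ = d := by group
        rwa [h8] at h6
    have hW : IsPGroup p (Subgroup.closure ({x, y} : Set M)) := h3 x hxE y hyE
    have hWn : Subgroup.closure ({x, y} : Set M) ≤ Subgroup.normalizer (D : Set M) := by
      rw [Subgroup.closure_le]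
      intro w hw
      rcases hw with hw | hw
      · rw [hw]; exact hnorm x hxΔ
      · rw [Set.mem_singleton_iff.1 hw]; exact hnorm y hyΔ
    have hsup : IsPGroup p (D ⊔ Subgroup.closure ({x, y} : Set M) : Subgroup M) :=
      IsPGroup.to_sup_of_normal_left' hDp hW hWn
    obtain ⟨R, hR⟩ := hsup.exists_le_sylow
    have hΔR : ∀ d ∈ Δ, d ∈ (R : Subgroup M) := fun d hd =>
      hR (Subgroup.mem_sup_left (Subgroup.subset_closure hd))
    have hxR : x ∈ (R : Subgroup M) := hR (Subgroup.mem_sup_right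
      (Subgroup.subset_closure (Set.mem_insert _ _)))
    have hyR : y ∈ (R : Subgroup M) := hR (Subgroup.mem_sup_right
      (Subgroup.subset_closure (Set.mem_insert_of_mem _ (Set.mem_singleton _))))
    have hxΔn : x ∉ Δ := fun h => hxT h.2
    have hyΔn : y ∉ Δ := fun h => hyS h.1.2
    have hSR : E ∩ (S : Set M) = E ∩ (R : Set M) := by
      refine ih S R ?_
      have h4 : (insert x Δ).ncard ≤ (E ∩ (S : Set M) ∩ (R : Set M)).ncard := by
        refine Set.ncard_le_ncard ?_ (hfin _)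
        intro d hd
        rcases hd with hd | hd
        · rw [hd]; exact ⟨⟨hxE, hxS⟩, hxR⟩
        · exact ⟨hd.1, hΔR d hd⟩
      rw [Set.ncard_insert_of_notMem hxΔn (hfin _)] at h4
      omega
    have hTR : E ∩ (T : Set M) = E ∩ (R : Set M) := by
      refine ih T R ?_
      have h4 : (insert y Δ).ncard ≤ (E ∩ (T : Set M) ∩ (R : Set M)).ncard := by
        refine Set.ncard_le_ncard ?_ (hfin _)
        intro d hd
        rcases hd with hd | hd
        · rw [hd]; exact ⟨⟨hyE, hyT⟩, hyR⟩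
        · exact ⟨⟨hd.1.1, hd.2⟩, hΔR d hd⟩
      rw [Set.ncard_insert_of_notMem hyΔn (hfin _)] at h4
      omega
    exact hne (hSR.trans hTR.symm)

/-- **Baer-Suzuki**: a set `E` of elements of a finite group, closed under conjugation, such that
any two elements of `E` generate a `p`-group, generates a `p`-group. -/
theorem baer_suzuki {M : Type*} [Group M] [Finite M] {p : ℕ} [Fact p.Prime] (E : Set M)
    (h2 : ∀ g : M, ∀ x ∈ E, g * x * g⁻¹ ∈ E)
    (h3 : ∀ x ∈ E, ∀ y ∈ E, IsPGroup p (Subgroup.closure ({x, y} : Set M))) :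
    IsPGroup p (Subgroup.closure E) := by
  classical
  obtain ⟨S⟩ : Nonempty (Sylow p M) := inferInstance
  refine S.isPGroup'.to_le ?_
  rw [Subgroup.closure_le]
  intro x hx
  obtain ⟨T, hT⟩ := (h3 x hx x hx).exists_le_sylow
  have hxT : x ∈ (T : Subgroup M) := hT (Subgroup.subset_closure (Set.mem_insert _ _))
  have h := sylow_inter_eq E h2 h3 (Nat.card M) T S (Nat.le_add_right _ _)
  have h4 : x ∈ E ∩ (S : Set M) := by
    rw [← h]; exact ⟨hx, hxT⟩
  exact h4.2

end Pool.Agent.H8.SNZ
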