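import Pool.Agent.H8.SNZ.BS

/-!
# Lemma Z (helper68 (D)): `⟨V, h V h⁻¹⟩` is a `p`-group
-/

set_option autoImplicit false

namespace Pool.Agent.H8.SNZ

/-- a set of commuting `p`-elements generates a `p`-group -/
theorem isPGroup_closure_of_comm {G : Type*} [Group G] {p : ℕ} (S : Set G)
    (hc : ∀ x ∈ S, ∀ y ∈ S, x * y = y * x) (hp : ∀ x ∈ S, ∃ k : ℕ, x ^ p ^ k = 1) :
    IsPGroup p (Subgroup.closure S) := by
  have hcc : ∀ x ∈ Subgroup.closure S, ∀ y ∈ Subgroup.closure S, x * y = y * x := by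
    have h1 : ∀ x ∈ S, ∀ y ∈ Subgroup.closure S, x * y = y * x := by
      intro x hx y hy
      induction hy using Subgroup.closure_induction with
      | mem a ha => exact hc x hx a ha
      | one => rw [mul_one, one_mul]
      | mul a b _ _ iha ihb => rw [← mul_assoc, iha, mul_assoc, ihb, mul_assoc]
      | inv a _ iha =>
        calc x * a⁻¹ = a⁻¹ * (a * x) * a⁻¹ := by group
          _ = a⁻¹ * (x * a) * a⁻¹ := by rw [iha]
          _ = a⁻¹ * x := by group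
    intro x hx y hy
    induction hx using Subgroup.closure_induction with
    | mem a ha => exact h1 a ha y hy
    | one => rw [mul_one, one_mul]
    | mul a b _ _ iha ihb => rw [mul_assoc, ihb, ← mul_assoc, iha, mul_assoc]
    | inv a _ iha =>
      calc a⁻¹ * y = a⁻¹ * (y * a) * a⁻¹ := by group
        _ = a⁻¹ * (a * y) * a⁻¹ := by rw [iha]
        _ = y * a⁻¹ := by group
  have key : ∀ x ∈ Subgroup.closure S, ∃ k : ℕ, x ^ p ^ k = 1 := by
    intro x hx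
    induction hx using Subgroup.closure_induction with
    | mem a ha => exact hp a ha
    | one => exact ⟨0, one_pow _⟩
    | mul a b ha hb iha ihb =>
      obtain ⟨k, hk⟩ := iha
      obtain ⟨l, hl⟩ := ihb
      refine ⟨k + l, ?_⟩
      have h2 : Commute a b := hcc a ha b hb
      rw [h2.mul_pow, pow_add, pow_mul, hk, one_pow, one_mul, mul_comm, pow_mul, hl, one_pow]
    | inv a _ iha =>
      obtain ⟨k, hk⟩ := iha
      exact ⟨k, by rw [inv_pow, hk, inv_one]⟩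
  rintro ⟨x, hx⟩
  obtain ⟨k, hk⟩ := key x hx
  exact ⟨k, Subtype.ext hk⟩

/-- the quotient step -/
theorem quot_step {G : Type*} [Group G] {p : ℕ} [Fact p.Prime] (A B Z : Subgroup G)
    [hZ : Z.Normal] (hA : IsPGroup p A) (hB : IsPGroup p B) (hAB : A ⊔ B = ⊤)
    (hBc : ∀ b ∈ B, ∀ b' ∈ B, b * b' = b' * b)
    (hcomm : ∀ a ∈ A, ∀ b ∈ B, ∀ b' ∈ B,
      (b' * a * b'⁻¹ * a⁻¹)⁻¹ * (b * (b' * a * b'⁻¹ * a⁻¹) * b⁻¹) ∈ Z) (g : G) :
    ∃ k : ℕ, g ^ p ^ k ∈ Z := by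
  set π : G →* G ⧸ Z := QuotientGroup.mk' Z with hπ
  have hker : ∀ x : G, x ∈ Z → π x = 1 := fun x hx => (QuotientGroup.eq_one_iff x).2 hx
  -- commuting modulo `Z`
  have hc1 : ∀ a ∈ A, ∀ b ∈ B, ∀ b' ∈ B, Commute (π (b' * a * b'⁻¹ * a⁻¹)) (π b) := by
    intro a ha b hb b' hb'
    have h1 := hker _ (hcomm a ha b hb b' hb')
    set c := b' * a * b'⁻¹ * a⁻¹ with hcdef
    have h2 : (π c)⁻¹ * (π b * π c * (π b)⁻¹) = 1 := by
      rw [← map_inv, ← map_inv, ← map_mul, ← map_mul, ← map_mul]; exact h1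
    have h3 : π b * π c * (π b)⁻¹ = π c := by
      calc π b * π c * (π b)⁻¹ = π c * ((π c)⁻¹ * (π b * π c * (π b)⁻¹)) := by group
        _ = π c := by rw [h2, mul_one]
    show π c * π b = π b * π c
    calc π c * π b = π b * π c * (π b)⁻¹ * π b := by rw [h3]
      _ = π b * π c := by group
  have hc2 : ∀ a ∈ A, ∀ b ∈ B, ∀ b' ∈ B, Commute (π (a * b * a⁻¹)) (π b') := by
    intro a ha b hb b' hb'
    have h1 : a * b * a⁻¹ = (b * a * b⁻¹ * a⁻¹)⁻¹ * b := by group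
    rw [h1, map_mul, map_inv]
    refine Commute.mul_left (hc1 a ha b' hb' b hb).inv_left ?_
    show π b * π b' = π b' * π b
    rw [← map_mul, ← map_mul, hBc b hb b' hb']
  set S : Set (G ⧸ Z) := {x | ∃ a ∈ A, ∃ b ∈ B, x = π (a * b * a⁻¹)} with hS
  have hSc : ∀ x ∈ S, ∀ y ∈ S, x * y = y * x := by
    rintro x ⟨a, ha, b, hb, rfl⟩ y ⟨a', ha', b', hb', rfl⟩
    have h1 := (hc2 (a'⁻¹ * a) (A.mul_mem (A.inv_mem ha') ha) b hb b' hb').eq
    have h2 : π (a * b * a⁻¹) = π a' * π (a'⁻¹ * a * b * (a'⁻¹ * a)⁻¹) * (π a')⁻¹ := by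
      rw [← map_inv, ← map_mul, ← map_mul]; congr 1; group
    have h3 : π (a' * b' * a'⁻¹) = π a' * π b' * (π a')⁻¹ := by
      rw [← map_inv, ← map_mul, ← map_mul]
    rw [h2, h3]
    calc π a' * π (a'⁻¹ * a * b * (a'⁻¹ * a)⁻¹) * (π a')⁻¹ * (π a' * π b' * (π a')⁻¹)
        = π a' * (π (a'⁻¹ * a * b * (a'⁻¹ * a)⁻¹) * π b') * (π a')⁻¹ := by group
      _ = π a' * (π b' * π (a'⁻¹ * a * b * (a'⁻¹ * a)⁻¹)) * (π a')⁻¹ := by rw [h1]
      _ = _ := by group
  have hSp : ∀ x ∈ S, ∃ k : ℕ, x ^ p ^ k = 1 := by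
    rintro x ⟨a, ha, b, hb, rfl⟩
    obtain ⟨k, hk⟩ := hB ⟨b, hb⟩
    refine ⟨k, ?_⟩
    have hk' : b ^ p ^ k = 1 := congrArg Subtype.val hk
    rw [← map_pow, conj_pow, hk', mul_one, mul_inv_cancel, map_one]
  have hN : IsPGroup p (Subgroup.closure S) := isPGroup_closure_of_comm S hSc hSp
  have hA' : IsPGroup p (A.map π) := hA.map π
  have hAn : A.map π ≤ Subgroup.normalizer (Subgroup.closure S : Set (G ⧸ Z)) := by
    have h4 : ∀ v ∈ A, ∀ d ∈ Subgroup.closure S, π v * d * (π v)⁻¹ ∈ Subgroup.closure S := by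
      intro v hv d hd
      induction hd using Subgroup.closure_induction with
      | mem x hx =>
        obtain ⟨a, ha, b, hb, rfl⟩ := hx
        refine Subgroup.subset_closure ⟨v * a, A.mul_mem hv ha, b, hb, ?_⟩
        rw [← map_inv, ← map_mul, ← map_mul]; congr 1; group
      | one => rw [mul_one, mul_inv_cancel]; exact Subgroup.one_mem _
      | mul a b _ _ iha ihb =>
        have h5 : π v * (a * b) * (π v)⁻¹ = (π v * a * (π v)⁻¹) * (π v * b * (π v)⁻¹) := by group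
        rw [h5]; exact Subgroup.mul_mem _ iha ihb
      | inv a _ iha =>
        have h5 : π v * a⁻¹ * (π v)⁻¹ = (π v * a * (π v)⁻¹)⁻¹ := by group
        rw [h5]; exact Subgroup.inv_mem _ iha
    rintro w ⟨v, hv, rfl⟩
    rw [Subgroup.mem_normalizer_iff]
    intro d
    constructor
    · exact h4 v hv d
    · intro h5
      have h6 := h4 v⁻¹ (A.inv_mem hv) _ h5
      have h8 : π v⁻¹ * (π v * d * (π v)⁻¹) * (π v⁻¹)⁻¹ = d := by rw [map_inv]; group
      rwa [h8] at h6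
  have hsup : IsPGroup p (A.map π ⊔ Subgroup.closure S : Subgroup (G ⧸ Z)) :=
    IsPGroup.to_sup_of_normal_right' hA' hN hAn
  have htop : ∀ x : G ⧸ Z, x ∈ (A.map π ⊔ Subgroup.closure S : Subgroup (G ⧸ Z)) := by
    have h5 : (A ⊔ B).map π ≤ A.map π ⊔ Subgroup.closure S := by
      rw [Subgroup.map_sup]
      refine sup_le_sup (le_refl _) ?_
      rintro w ⟨b, hb, rfl⟩
      refine Subgroup.subset_closure ⟨1, A.one_mem, b, hb, ?_⟩
      rw [one_mul, inv_one, mul_one]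
    intro x
    obtain ⟨g, rfl⟩ := QuotientGroup.mk'_surjective Z x
    exact h5 ⟨g, by rw [hAB]; exact Subgroup.mem_top g, rfl⟩
  obtain ⟨k, hk⟩ := hsup ⟨π g, htop _⟩
  refine ⟨k, ?_⟩
  have hk' : (π g) ^ p ^ k = 1 := congrArg Subtype.val hk
  rw [← map_pow] at hk'
  exact (QuotientGroup.eq_one_iff _).1 hk'

theorem le_normalizer_of {M : Type*} [Group M] {K N : Subgroup M}
    (h : ∀ k ∈ K, ∀ n ∈ N, k * n * k⁻¹ ∈ N) : K ≤ Subgroup.normalizer (N : Set M) := by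
  intro k hk
  rw [Subgroup.mem_normalizer_iff]
  intro d
  constructor
  · exact h k hk d
  · intro h5
    have h6 := h k⁻¹ (K.inv_mem hk) _ h5
    have h8 : k⁻¹ * (k * d * k⁻¹) * (k⁻¹)⁻¹ = d := by group
    rwa [h8] at h6

/-- one side -/
theorem side {M : Type*} [Group M] {p : ℕ} [Fact p.Prime] {z : M} (hz : z * z = 1)
    (V W : Subgroup M) (hV : IsPGroup p V) (hW : IsPGroup p W)
    (hWc : ∀ u ∈ W, ∀ u' ∈ W, u * u' = u' * u) (hWz : ∀ u ∈ W, z * u * z = u⁻¹)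
    (hsq : ∀ u ∈ W, ∃ s ∈ W, s * s = u)
    (K1 : ∀ g : M, ∀ a ∈ V, ∀ b ∈ V,
      ((g * z * g⁻¹) * a * (g * z * g⁻¹)) * b = b * ((g * z * g⁻¹) * a * (g * z * g⁻¹)))
    (K2 : ∀ g : M, ∀ a ∈ W, ∀ b ∈ W,
      ((g * z * g⁻¹) * a * (g * z * g⁻¹)) * b = b * ((g * z * g⁻¹) * a * (g * z * g⁻¹))) :
    ∃ Z0 : Subgroup M, (∀ x ∈ Z0, ∀ v ∈ V, x * v = v * x) ∧
      ∀ g ∈ V ⊔ W, ∃ k : ℕ, g ^ p ^ k ∈ Z0 := by
  have hz' : z⁻¹ = z := inv_eq_of_mul_eq_one_right hz
  have zinv : ∀ t : M, z * t⁻¹ * z = (z * t * z)⁻¹ := by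
    intro t
    rw [mul_inv_rev, mul_inv_rev, hz', mul_assoc]
  have hzu : ∀ u ∈ W, u * z * u = z := by
    intro u hu
    have h1 := hWz u hu
    calc u * z * u = u * (z * u * z) * z⁻¹ := by group
      _ = z := by rw [h1, hz', mul_inv_cancel, one_mul]
  -- `z u v (z u)⁻¹` commutes with `v'`
  have h2 : ∀ u ∈ W, ∀ v ∈ V, ∀ v' ∈ V,
      (z * (u * v * u⁻¹) * z) * v' = v' * (z * (u * v * u⁻¹) * z) := by
    intro u hu v hv v' hv'
    obtain ⟨s, hs, rfl⟩ := hsq u hu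
    have h3 := K1 s⁻¹ v hv v' hv'
    have h4 : s⁻¹ * z * (s⁻¹)⁻¹ = z * (s * s) := by
      have h5 := hzu s hs
      calc s⁻¹ * z * (s⁻¹)⁻¹ = s⁻¹ * (s * z * s) * s := by rw [h5]; group
        _ = z * (s * s) := by group
    have h6 : z * (s * s) = (s * s)⁻¹ * z := by
      have h7 := hzu (s * s) (W.mul_mem hs hs)
      calc z * (s * s) = (s * s)⁻¹ * ((s * s) * z * (s * s)) := by group
        _ = (s * s)⁻¹ * z := by rw [h7]
    rw [h4] at h3
    have h8 : z * (s * s) * v * (z * (s * s)) = z * (s * s * v * (s * s)⁻¹) * z := by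
      nth_rewrite 2 [h6]
      group
    rw [h8] at h3
    exact h3
  set N : Subgroup M := Subgroup.closure {x | ∃ u ∈ W, ∃ v ∈ V, x = u * v * u⁻¹} with hN
  have hWN : ∀ u ∈ W, ∀ x ∈ N, u * x * u⁻¹ ∈ N := by
    intro u hu x hx
    rw [hN] at hx
    induction hx using Subgroup.closure_induction with
    | mem x hx =>
      obtain ⟨u', hu', v, hv, rfl⟩ := hx
      exact Subgroup.subset_closure ⟨u * u', W.mul_mem hu hu', v, hv, by group⟩
    | one => rw [mul_one, mul_inv_cancel]; exact Subgroup.one_mem _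
    | mul a b _ _ iha ihb =>
      have h5 : u * (a * b) * u⁻¹ = (u * a * u⁻¹) * (u * b * u⁻¹) := by group
      rw [h5]; exact Subgroup.mul_mem _ iha ihb
    | inv a _ iha =>
      have h5 : u * a⁻¹ * u⁻¹ = (u * a * u⁻¹)⁻¹ := by group
      rw [h5]; exact Subgroup.inv_mem _ iha
  have hVN : V ≤ N := fun v hv =>
    Subgroup.subset_closure ⟨1, W.one_mem, v, hv, by rw [one_mul, inv_one, mul_one]⟩
  -- (1) `N` and `z N z` commute
  have h1 : ∀ x ∈ N, ∀ y ∈ N, Commute (z * x * z) y := by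
    have hg : ∀ u ∈ W, ∀ v ∈ V, ∀ u' ∈ W, ∀ v' ∈ V,
        Commute (z * (u * v * u⁻¹) * z) (u' * v' * u'⁻¹) := by
      intro u hu v hv u' hu' v' hv'
      have h3 := h2 (u' * u) (W.mul_mem hu' hu) v hv v' hv'
      have h4 := hzu u' hu'
      have h5 : z * (u * v * u⁻¹) * z =
          u' * (z * (u' * u * v * (u' * u)⁻¹) * z) * u'⁻¹ := by
        have h6 : z * u'⁻¹ = u' * z := by
          calc z * u'⁻¹ = (u' * z * u') * u'⁻¹ := by rw [h4]
            _ = u' * z := by group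
        have h7 : u'⁻¹ * z = z * u' := by
          calc u'⁻¹ * z = u'⁻¹ * (u' * z * u') := by rw [h4]
            _ = z * u' := by group
        calc z * (u * v * u⁻¹) * z = (u' * z * u') * (u * v * u⁻¹) * z := by rw [h4]
          _ = u' * z * (u' * u * v * (u' * u)⁻¹) * (u' * z) := by group
          _ = u' * z * (u' * u * v * (u' * u)⁻¹) * (z * u'⁻¹) := by rw [h6]
          _ = _ := by group
      show _ * _ = _ * _
      rw [h5]
      calc u' * (z * (u' * u * v * (u' * u)⁻¹) * z) * u'⁻¹ * (u' * v' * u'⁻¹)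
          = u' * ((z * (u' * u * v * (u' * u)⁻¹) * z) * v') * u'⁻¹ := by group
        _ = u' * (v' * (z * (u' * u * v * (u' * u)⁻¹) * z)) * u'⁻¹ := by rw [h3]
        _ = _ := by group
    have hg2 : ∀ u ∈ W, ∀ v ∈ V, ∀ y ∈ N, Commute (z * (u * v * u⁻¹) * z) y := by
      intro u hu v hv y hy
      rw [hN] at hy
      induction hy using Subgroup.closure_induction with
      | mem y hy => obtain ⟨u', hu', v', hv', rfl⟩ := hy; exact hg u hu v hv u' hu' v' hv'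
      | one => exact Commute.one_right _
      | mul a b _ _ iha ihb => exact iha.mul_right ihb
      | inv a _ iha => exact iha.inv_right
    intro x hx y hy
    rw [hN] at hx
    induction hx using Subgroup.closure_induction with
    | mem x hx => obtain ⟨u, hu, v, hv, rfl⟩ := hx; exact hg2 u hu v hv y hy
    | one => rw [mul_one, hz]; exact Commute.one_left _
    | mul a b _ _ iha ihb =>
      have h5 : z * (a * b) * z = (z * a * z) * (z * b * z) := by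
        calc z * (a * b) * z = z * a * 1 * b * z := by group
          _ = z * a * (z * z) * b * z := by rw [hz]
          _ = _ := by group
      rw [h5]; exact iha.mul_left ihb
    | inv a _ iha =>
      have h5 : z * a⁻¹ * z = (z * a * z)⁻¹ := by
        rw [mul_inv_rev, mul_inv_rev, hz', mul_assoc]
      rw [h5]; exact iha.inv_left
  set Z0 : Subgroup M := N ⊓ N.comap (MulAut.conj z).toMonoidHom with hZ0
  have hmem : ∀ x, x ∈ Z0 ↔ x ∈ N ∧ z * x * z ∈ N := by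
    intro x
    rw [hZ0, Subgroup.mem_inf, Subgroup.mem_comap]
    have h5 : (MulAut.conj z).toMonoidHom x = z * x * z := by
      show z * x * z⁻¹ = _
      rw [hz']
    rw [h5]
  have hZN : ∀ x ∈ Z0, ∀ y ∈ N, Commute x y := by
    intro x hx y hy
    have h5 := h1 (z * x * z) ((hmem x).1 hx).2 y hy
    have h6 : z * (z * x * z) * z = x := by
      calc z * (z * x * z) * z = (z * z) * x * (z * z) := by group
        _ = x := by rw [hz]; group
    rwa [h6] at h5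
  refine ⟨Z0, fun x hx v hv => (hZN x hx v (hVN hv)).eq, ?_⟩
  have hcomm : ∀ a ∈ V, ∀ b ∈ W, ∀ b' ∈ W,
      (b' * a * b'⁻¹ * a⁻¹)⁻¹ * (b * (b' * a * b'⁻¹ * a⁻¹) * b⁻¹) ∈ Z0 := by
    intro a ha b hb b' hb'
    have hcN : b' * a * b'⁻¹ * a⁻¹ ∈ N :=
      N.mul_mem (hWN b' hb' a (hVN ha)) (N.inv_mem (hVN ha))
    have hc'N : b'⁻¹ * a⁻¹ * b' * a ∈ N := by
      have h5 := hWN b'⁻¹ (W.inv_mem hb') a⁻¹ (N.inv_mem (hVN ha))
      rw [inv_inv] at h5
      exact N.mul_mem h5 (hVN ha)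
    set c := b' * a * b'⁻¹ * a⁻¹ with hc
    set c' := b'⁻¹ * a⁻¹ * b' * a with hc'
    have hda : Commute (z * c' * z) a := h1 c' hc'N a (hVN ha)
    have h3 := K2 a b' hb' b hb
    have h4 : (a * z * a⁻¹) * b' * (a * z * a⁻¹) = b'⁻¹ * c * (z * c' * z) := by
      have h5 : b'⁻¹ * c = a * b'⁻¹ * a⁻¹ := by rw [hc]; group
      have h6 : a⁻¹ * b' * a = b' * c' := by rw [hc']; group
      have h7 : z * b' = b'⁻¹ * z := by
        have h8 := hzu b' hb'
        calc z * b' = b'⁻¹ * (b' * z * b') := by group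
          _ = b'⁻¹ * z := by rw [h8]
      calc (a * z * a⁻¹) * b' * (a * z * a⁻¹) = a * z * (a⁻¹ * b' * a) * z * a⁻¹ := by group
        _ = a * (z * b') * c' * z * a⁻¹ := by rw [h6]; group
        _ = a * b'⁻¹ * ((z * c' * z) * a⁻¹) := by rw [h7]; group
        _ = a * b'⁻¹ * (a⁻¹ * (z * c' * z)) := by rw [hda.inv_right.eq]
        _ = b'⁻¹ * c * (z * c' * z) := by rw [h5]; group
    rw [h4] at h3
    set d := z * c' * z with hd
    have h9 : b * c * d = c * d * b := by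
      have h10 : b'⁻¹ * (b * c * d) = b'⁻¹ * (c * d * b) := by
        have h11 : b'⁻¹ * b = b * b'⁻¹ := hWc _ (W.inv_mem hb') _ hb
        calc b'⁻¹ * (b * c * d) = (b'⁻¹ * b) * c * d := by group
          _ = b * (b'⁻¹ * c * d) := by rw [h11]; group
          _ = b'⁻¹ * c * d * b := h3.symm
          _ = b'⁻¹ * (c * d * b) := by group
      exact mul_left_cancel h10
    have h12 : c⁻¹ * (b * c * b⁻¹) = d * (b * d * b⁻¹)⁻¹ := by
      calc c⁻¹ * (b * c * b⁻¹) = c⁻¹ * (b * c * d) * d⁻¹ * b⁻¹ := by group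
        _ = c⁻¹ * (c * d * b) * d⁻¹ * b⁻¹ := by rw [h9]
        _ = d * (b * d * b⁻¹)⁻¹ := by group
    rw [hmem]
    refine ⟨N.mul_mem (N.inv_mem hcN) (hWN b hb c hcN), ?_⟩
    rw [h12]
    have h13 : z * (d * (b * d * b⁻¹)⁻¹) * z = c' * (b⁻¹ * c' * b⁻¹⁻¹)⁻¹ := by
      have h7 : z * b * z = b⁻¹ := hWz b hb
      have h14 : z * d * z = c' := by
        rw [hd]
        calc z * (z * c' * z) * z = (z * z) * c' * (z * z) := by group
          _ = c' := by rw [hz]; group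
      have h15 : z * (b * d * b⁻¹) * z = b⁻¹ * c' * b⁻¹⁻¹ := by
        have h16 : z * b⁻¹ * z = b⁻¹⁻¹ := by rw [zinv, h7]
        calc z * (b * d * b⁻¹) * z = z * b * 1 * d * 1 * b⁻¹ * z := by group
          _ = z * b * (z * z) * d * (z * z) * b⁻¹ * z := by rw [hz]
          _ = (z * b * z) * (z * d * z) * (z * b⁻¹ * z) := by group
          _ = b⁻¹ * c' * b⁻¹⁻¹ := by rw [h7, h14, h16]
      calc z * (d * (b * d * b⁻¹)⁻¹) * z = z * d * 1 * (b * d * b⁻¹)⁻¹ * z := by group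
        _ = z * d * (z * z) * (b * d * b⁻¹)⁻¹ * z := by rw [hz]
        _ = (z * d * z) * (z * (b * d * b⁻¹)⁻¹ * z) := by group
        _ = (z * d * z) * (z * (b * d * b⁻¹) * z)⁻¹ := by rw [zinv (b * d * b⁻¹)]
        _ = c' * (b⁻¹ * c' * b⁻¹⁻¹)⁻¹ := by rw [h14, h15]
    rw [h13]
    exact N.mul_mem hc'N (N.inv_mem (hWN b⁻¹ (W.inv_mem hb) c' hc'N))
  -- normality
  have hVnorm : V ≤ Subgroup.normalizer (Z0 : Set M) := le_normalizer_of fun v hv n hn => by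
    have h5 := (hZN n hn v (hVN hv)).eq
    rw [← h5, mul_assoc, mul_inv_cancel, mul_one]; exact hn
  have hWnorm : W ≤ Subgroup.normalizer (Z0 : Set M) := le_normalizer_of fun u hu n hn => by
    obtain ⟨h5, h6⟩ := (hmem n).1 hn
    rw [hmem]
    refine ⟨hWN u hu n h5, ?_⟩
    have h7 : z * (u * n * u⁻¹) * z = u⁻¹ * (z * n * z) * u⁻¹⁻¹ := by
      have h8 : z * u = u⁻¹ * z := by
        have h9 := hzu u hu
        calc z * u = u⁻¹ * (u * z * u) := by group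
          _ = u⁻¹ * z := by rw [h9]
      have h10 : u⁻¹ * z = z * u := h8.symm
      calc z * (u * n * u⁻¹) * z = (z * u) * n * (u⁻¹ * z) := by group
        _ = (u⁻¹ * z) * n * (z * u) := by rw [h8, ← h8]
        _ = u⁻¹ * (z * n * z) * u⁻¹⁻¹ := by group
    rw [h7]
    exact hWN u⁻¹ (W.inv_mem hu) _ h6
  intro g hg
  set P0 : Subgroup M := V ⊔ W with hP0
  have hnorm : (Z0.subgroupOf P0).Normal := by
    refine ⟨fun n hn g => ?_⟩
    have h5 : (g : M) ∈ Subgroup.normalizer (Z0 : Set M) := (sup_le hVnorm hWnorm) g.2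
    rw [Subgroup.mem_normalizer_iff] at h5
    exact Subgroup.mem_subgroupOf.2 ((h5 n).1 (Subgroup.mem_subgroupOf.1 hn))
  have hVP : V ≤ P0 := le_sup_left
  have hWP : W ≤ P0 := le_sup_right
  have htop : V.subgroupOf P0 ⊔ W.subgroupOf P0 = ⊤ := by
    rw [← Subgroup.subgroupOf_sup hVP hWP, ← hP0, Subgroup.subgroupOf_self]
  obtain ⟨k, hk⟩ := quot_step (V.subgroupOf P0) (W.subgroupOf P0) (Z0.subgroupOf P0)
    (hV.comap_subtype) (hW.comap_subtype) htop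
    (fun b hb b' hb' => Subtype.ext (hWc b hb b' hb'))
    (fun a ha b hb b' hb' => Subgroup.mem_subgroupOf.2 (hcomm a ha b hb b' hb')) ⟨g, hg⟩
  exact ⟨k, Subgroup.mem_subgroupOf.1 hk⟩

/-- the central step -/
theorem central_step {M : Type*} [Group M] [Finite M] {p : ℕ} [Fact p.Prime] (V W : Subgroup M)
    (hV : IsPGroup p V) (hW : IsPGroup p W)
    (h : ∀ g ∈ V ⊔ W, ∃ k : ℕ, (∀ v ∈ V, g ^ p ^ k * v = v * g ^ p ^ k) ∧
      ∀ v ∈ W, g ^ p ^ k * v = v * g ^ p ^ k) : IsPGroup p (V ⊔ W : Subgroup M) := by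
  set P0 : Subgroup M := V ⊔ W with hP0
  have hcen : ∀ g : P0, ∃ k : ℕ, g ^ p ^ k ∈ Subgroup.center P0 := by
    rintro ⟨g, hg⟩
    obtain ⟨k, h1, h2⟩ := h g hg
    refine ⟨k, ?_⟩
    rw [Subgroup.mem_center_iff]
    rintro ⟨y, hy⟩
    apply Subtype.ext
    show y * g ^ p ^ k = g ^ p ^ k * y
    have h3 : P0 ≤ Subgroup.centralizer {g ^ p ^ k} := by
      refine sup_le ?_ ?_
      · intro v hv
        rw [Subgroup.mem_centralizer_singleton_iff]
        exact (h1 v hv).symm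
      · intro v hv
        rw [Subgroup.mem_centralizer_singleton_iff]
        exact (h2 v hv).symm
    have h4 := h3 hy
    rwa [Subgroup.mem_centralizer_singleton_iff] at h4
  have hq : IsPGroup p (P0 ⧸ Subgroup.center P0) := by
    intro q
    obtain ⟨g, rfl⟩ := QuotientGroup.mk_surjective q
    obtain ⟨k, hk⟩ := hcen g
    refine ⟨k, ?_⟩
    rw [← QuotientGroup.mk_pow]
    exact (QuotientGroup.eq_one_iff _).2 hk
  have hnilq : Group.IsNilpotent (P0 ⧸ Subgroup.center P0) := IsPGroup.isNilpotent hq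
  have hnil : Group.IsNilpotent P0 := Group.of_quotient_center_nilpotent hnilq
  obtain ⟨S⟩ : Nonempty (Sylow p P0) := inferInstance
  have hnc : NormalizerCondition P0 := Group.normalizerCondition_of_isNilpotent
  have hSn : (S : Subgroup P0).Normal := Sylow.normal_of_normalizerCondition hnc S
  have hle : ∀ K : Subgroup P0, IsPGroup p K → K ≤ (S : Subgroup P0) := by
    intro K hK
    have h5 : IsPGroup p (K ⊔ (S : Subgroup P0) : Subgroup P0) :=
      IsPGroup.to_sup_of_normal_right hK S.isPGroup'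
    have h6 := S.is_maximal' h5 le_sup_right
    exact le_sup_left.trans h6.le
  have hVP : V ≤ P0 := le_sup_left
  have hWP : W ≤ P0 := le_sup_right
  have htop : V.subgroupOf P0 ⊔ W.subgroupOf P0 = ⊤ := by
    rw [← Subgroup.subgroupOf_sup hVP hWP, ← hP0, Subgroup.subgroupOf_self]
  have hS : (S : Subgroup P0) = ⊤ := by
    rw [eq_top_iff, ← htop]
    exact sup_le (hle _ hV.comap_subtype) (hle _ hW.comap_subtype)
  intro g
  obtain ⟨k, hk⟩ := S.isPGroup' ⟨g, by rw [hS]; exact Subgroup.mem_top g⟩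
  exact ⟨k, congrArg Subtype.val hk⟩

/-- **Lemma Z** (helper68 (D)) -/
theorem lemma_Z {M : Type*} [Group M] [Finite M] {p : ℕ} [Fact p.Prime] (hp : Odd p) {z : M}
    (hz : z * z = 1) {V : Subgroup M} (hVp : IsPGroup p V)
    (hVc : ∀ a ∈ V, ∀ b ∈ V, a * b = b * a) (hVz : ∀ v ∈ V, z * v * z = v⁻¹)
    (hC : ∀ g : M, ∀ a ∈ V, ∀ b ∈ V,
      ((g * z * g⁻¹) * a * (g * z * g⁻¹)) * b = b * ((g * z * g⁻¹) * a * (g * z * g⁻¹))) (h : M) :
    IsPGroup p (V ⊔ V.map (MulAut.conj h).toMonoidHom : Subgroup M) := by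
  set W : Subgroup M := V.map (MulAut.conj h).toMonoidHom with hW
  have hmem : ∀ u, u ∈ W ↔ ∃ v ∈ V, u = h * v * h⁻¹ := by
    intro u
    rw [hW, Subgroup.mem_map]
    constructor
    · rintro ⟨v, hv, rfl⟩
      exact ⟨v, hv, rfl⟩
    · rintro ⟨v, hv, rfl⟩
      exact ⟨v, hv, rfl⟩
  have hWp : IsPGroup p W := hVp.map _
  have hz' : z⁻¹ = z := inv_eq_of_mul_eq_one_right hz
  set w : M := h * z * h⁻¹ with hw
  have hw1 : w * w = 1 := by
    calc w * w = h * (z * z) * h⁻¹ := by rw [hw]; group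
      _ = 1 := by rw [hz]; group
  have hsqV : ∀ u ∈ V, ∃ s ∈ V, s * s = u := by
    intro u hu
    obtain ⟨k, hk⟩ := hVp ⟨u, hu⟩
    have hk' : u ^ p ^ k = 1 := congrArg Subtype.val hk
    obtain ⟨m, hm⟩ := hp.pow (n := k)
    refine ⟨u ^ (m + 1), V.pow_mem hu _, ?_⟩
    rw [← pow_add]
    have h5 : m + 1 + (m + 1) = p ^ k + 1 := by omega
    rw [h5, pow_add, hk', pow_one, one_mul]
  have hsqW : ∀ u ∈ W, ∃ s ∈ W, s * s = u := by
    intro u hu
    obtain ⟨v, hv, rfl⟩ := (hmem u).1 hu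
    obtain ⟨s, hs, hss⟩ := hsqV v hv
    refine ⟨h * s * h⁻¹, (hmem _).2 ⟨s, hs, rfl⟩, ?_⟩
    rw [← hss]; group
  have hWc : ∀ a ∈ W, ∀ b ∈ W, a * b = b * a := by
    intro a ha b hb
    obtain ⟨v, hv, rfl⟩ := (hmem a).1 ha
    obtain ⟨v', hv', rfl⟩ := (hmem b).1 hb
    calc h * v * h⁻¹ * (h * v' * h⁻¹) = h * (v * v') * h⁻¹ := by group
      _ = h * (v' * v) * h⁻¹ := by rw [hVc v hv v' hv']
      _ = _ := by group
  have hWz : ∀ v ∈ W, w * v * w = v⁻¹ := by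
    intro u hu
    obtain ⟨v, hv, rfl⟩ := (hmem u).1 hu
    calc w * (h * v * h⁻¹) * w = h * (z * v * z) * h⁻¹ := by rw [hw]; group
      _ = (h * v * h⁻¹)⁻¹ := by rw [hVz v hv]; group
  -- the commutation for `W`, with all conjugates of `z`
  have hCW : ∀ g : M, ∀ a ∈ W, ∀ b ∈ W,
      ((g * z * g⁻¹) * a * (g * z * g⁻¹)) * b = b * ((g * z * g⁻¹) * a * (g * z * g⁻¹)) := by
    intro g a ha b hb
    obtain ⟨v, hv, rfl⟩ := (hmem a).1 ha
    obtain ⟨v', hv', rfl⟩ := (hmem b).1 hb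
    have h5 := hC (h⁻¹ * g) v hv v' hv'
    calc (g * z * g⁻¹) * (h * v * h⁻¹) * (g * z * g⁻¹) * (h * v' * h⁻¹)
        = h * ((h⁻¹ * g * z * (h⁻¹ * g)⁻¹) * v * (h⁻¹ * g * z * (h⁻¹ * g)⁻¹) * v') * h⁻¹ := by
          group
      _ = h * (v' * ((h⁻¹ * g * z * (h⁻¹ * g)⁻¹) * v * (h⁻¹ * g * z * (h⁻¹ * g)⁻¹))) * h⁻¹ := by
          rw [h5]
      _ = _ := by group
  have hCw : ∀ (X : Subgroup M), (∀ g : M, ∀ a ∈ X, ∀ b ∈ X,
      ((g * z * g⁻¹) * a * (g * z * g⁻¹)) * b = b * ((g * z * g⁻¹) * a * (g * z * g⁻¹))) →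
      ∀ g : M, ∀ a ∈ X, ∀ b ∈ X,
      ((g * w * g⁻¹) * a * (g * w * g⁻¹)) * b = b * ((g * w * g⁻¹) * a * (g * w * g⁻¹)) := by
    intro X hX g a ha b hb
    have h5 := hX (g * h) a ha b hb
    have h6 : g * h * z * (g * h)⁻¹ = g * w * g⁻¹ := by rw [hw]; group
    rwa [h6] at h5
  obtain ⟨Z1, hZ1, hZ1'⟩ := side (p := p) hw1 V W hVp hWp hWc hWz hsqW (hCw V hC) (hCw W hCW)
  obtain ⟨Z2, hZ2, hZ2'⟩ := side (p := p) hz W V hWp hVp hVc hVz hsqV hCW hC
  refine central_step V W hVp hWp fun g hg => ?_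
  obtain ⟨k, hk⟩ := hZ1' g hg
  obtain ⟨l, hl⟩ := hZ2' g (by rwa [sup_comm])
  refine ⟨k + l, ?_, ?_⟩
  · intro v hv
    refine hZ1 _ ?_ v hv
    rw [pow_add, pow_mul]
    exact Z1.pow_mem hk _
  · intro v hv
    refine hZ2 _ ?_ v hv
    rw [pow_add, mul_comm, pow_mul]
    exact Z2.pow_mem hl _

/-- Conclusion: `V` lies in a normal `p`-subgroup. -/
theorem lemma_Z_normal {M : Type*} [Group M] [Finite M] {p : ℕ} [Fact p.Prime] (hp : Odd p) {z : M}
    (hz : z * z = 1) {V : Subgroup M} (hVp : IsPGroup p V)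
    (hVc : ∀ a ∈ V, ∀ b ∈ V, a * b = b * a) (hVz : ∀ v ∈ V, z * v * z = v⁻¹)
    (hC : ∀ g : M, ∀ a ∈ V, ∀ b ∈ V,
      ((g * z * g⁻¹) * a * (g * z * g⁻¹)) * b = b * ((g * z * g⁻¹) * a * (g * z * g⁻¹))) :
    ∃ N : Subgroup M, N.Normal ∧ IsPGroup p N ∧ V ≤ N := by
  set E : Set M := {x | ∃ g : M, ∃ v ∈ V, x = g * v * g⁻¹} with hE
  have hE2 : ∀ g : M, ∀ x ∈ E, g * x * g⁻¹ ∈ E := by
    rintro g x ⟨g', v, hv, rfl⟩
    exact ⟨g * g', v, hv, by group⟩
  have hE3 : ∀ x ∈ E, ∀ y ∈ E, IsPGroup p (Subgroup.closure ({x, y} : Set M)) := by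
    rintro x ⟨g, v, hv, rfl⟩ y ⟨g', v', hv', rfl⟩
    have h1 := (lemma_Z hp hz hVp hVc hVz hC (g⁻¹ * g')).map (MulAut.conj g).toMonoidHom
    refine h1.to_le ?_
    rw [Subgroup.closure_le]
    intro w hw
    rcases hw with hw | hw
    · rw [hw]
      exact ⟨v, Subgroup.mem_sup_left hv, rfl⟩
    · rw [Set.mem_singleton_iff.1 hw]
      refine ⟨(g⁻¹ * g') * v' * (g⁻¹ * g')⁻¹, Subgroup.mem_sup_right ⟨v', hv', rfl⟩, ?_⟩
      show g * (g⁻¹ * g' * v' * (g⁻¹ * g')⁻¹) * g⁻¹ = _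
      group
  refine ⟨Subgroup.closure E, ⟨fun n hn g => ?_⟩, baer_suzuki E hE2 hE3, fun v hv =>
    Subgroup.subset_closure ⟨1, v, hv, by group⟩⟩
  induction hn using Subgroup.closure_induction with
  | mem x hx => exact Subgroup.subset_closure (hE2 g x hx)
  | one => rw [mul_one, mul_inv_cancel]; exact Subgroup.one_mem _
  | mul a b _ _ iha ihb =>
    have h5 : g * (a * b) * g⁻¹ = (g * a * g⁻¹) * (g * b * g⁻¹) := by group
    rw [h5]; exact Subgroup.mul_mem _ iha ihb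
  | inv a _ iha =>
    have h5 : g * a⁻¹ * g⁻¹ = (g * a * g⁻¹)⁻¹ := by group
    rw [h5]; exact Subgroup.inv_mem _ iha

/-- The form for one element: `b` of `p`-power order (`p` odd), inverted by `z`, commuting with
`w b w` for all `w` in the class of `z`, lies in a normal `p`-subgroup. -/
theorem elem_Z {M : Type*} [Group M] [Finite M] {p : ℕ} [Fact p.Prime] (hp : Odd p) {z b : M}
    (hz : z * z = 1) (hb : ∃ k : ℕ, b ^ p ^ k = 1) (hbz : z * b * z = b⁻¹)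
    (hC : ∀ g : M, ((g * z * g⁻¹) * b * (g * z * g⁻¹)) * b = b * ((g * z * g⁻¹) * b * (g * z * g⁻¹))) :
    ∃ N : Subgroup M, N.Normal ∧ IsPGroup p N ∧ b ∈ N := by
  have hz' : z⁻¹ = z := inv_eq_of_mul_eq_one_right hz
  have hVp : IsPGroup p (Subgroup.zpowers b) := by
    obtain ⟨k, hk⟩ := hb
    rintro ⟨x, hx⟩
    obtain ⟨i, hi⟩ := Subgroup.mem_zpowers_iff.1 hx
    refine ⟨k, Subtype.ext ?_⟩
    show x ^ p ^ k = 1
    rw [← hi, ← zpow_natCast, ← zpow_mul, mul_comm, zpow_mul, zpow_natCast, hk, one_zpow]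
  have hc : ∀ x ∈ Subgroup.zpowers b, ∀ y ∈ Subgroup.zpowers b, x * y = y * x := by
    intro x hx y hy
    obtain ⟨i, rfl⟩ := Subgroup.mem_zpowers_iff.1 hx
    obtain ⟨j, rfl⟩ := Subgroup.mem_zpowers_iff.1 hy
    rw [← zpow_add, ← zpow_add, add_comm]
  have hi : ∀ x ∈ Subgroup.zpowers b, z * x * z = x⁻¹ := by
    intro x hx
    obtain ⟨i, rfl⟩ := Subgroup.mem_zpowers_iff.1 hx
    have h4 : z * b ^ i * z⁻¹ = (z * b * z⁻¹) ^ i := by rw [conj_zpow]
    rw [hz'] at h4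
    rw [h4, hbz, inv_zpow]
  have hcc : ∀ g : M, ∀ x ∈ Subgroup.zpowers b, ∀ y ∈ Subgroup.zpowers b,
      ((g * z * g⁻¹) * x * (g * z * g⁻¹)) * y = y * ((g * z * g⁻¹) * x * (g * z * g⁻¹)) := by
    intro g x hx y hy
    obtain ⟨i, rfl⟩ := Subgroup.mem_zpowers_iff.1 hx
    obtain ⟨j, rfl⟩ := Subgroup.mem_zpowers_iff.1 hy
    have h5 : Commute ((g * z * g⁻¹) * b * (g * z * g⁻¹)) b := hC g
    set w := g * z * g⁻¹ with hw
    have hw' : w⁻¹ = w := by rw [hw]; simp only [mul_inv_rev, inv_inv, hz', mul_assoc]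
    have h4 : w * b ^ i * w⁻¹ = (w * b * w⁻¹) ^ i := by rw [conj_zpow]
    rw [hw'] at h4
    rw [h4]
    exact (h5.zpow_zpow i j).eq
  obtain ⟨N, h1, h2, h3⟩ := lemma_Z_normal hp hz hVp hc hi hcc
  exact ⟨N, h1, h2, h3 (Subgroup.mem_zpowers b)⟩

end Pool.Agent.H8.SNZ
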