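import Pool.Agent.H8.SNZ.BS

/-!
# R9a: Baer's theorem for involutions
-/

set_option autoImplicit false

namespace ALoop

/-- R9a (Baer): a set `E` of involutions of a finite group, closed under conjugation, such that
the products of two elements have orders which are powers of two, generates a 2-group -/
theorem R9a {M : Type*} [Group M] [Finite M] (E : Set M) (h1 : ∀ x ∈ E, x * x = 1)
    (h2 : ∀ g : M, ∀ x ∈ E, g * x * g⁻¹ ∈ E) (h3 : ∀ x ∈ E, ∀ y ∈ E, ∃ k : ℕ, (x * y) ^ 2 ^ k = 1) :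
    IsPGroup 2 (Subgroup.closure E) := by
  have : Fact (Nat.Prime 2) := ⟨Nat.prime_two⟩
  refine Pool.Agent.H8.SNZ.baer_suzuki E h2 fun x hx y hy => ?_
  obtain ⟨k, hk⟩ := h3 x hx y hy
  have hxx := h1 x hx
  have hyy := h1 y hy
  have hx' : x⁻¹ = x := inv_eq_of_mul_eq_one_right hxx
  have hy' : y⁻¹ = y := inv_eq_of_mul_eq_one_right hyy
  have hz : ∀ (a : M) (m : ℕ), a ^ 2 ^ m = 1 → IsPGroup 2 (Subgroup.zpowers a) := by
    rintro a m ham ⟨b, hb⟩
    obtain ⟨i, hi⟩ := Subgroup.mem_zpowers_iff.1 hb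
    refine ⟨m, Subtype.ext ?_⟩
    show b ^ 2 ^ m = 1
    rw [← hi, ← zpow_natCast, ← zpow_mul, mul_comm, zpow_mul, zpow_natCast, ham, one_zpow]
  have hr : IsPGroup 2 (Subgroup.zpowers (x * y)) := hz _ k hk
  have hx2 : IsPGroup 2 (Subgroup.zpowers x) := hz x 1 (by rw [pow_one, pow_two, hxx])
  have hconj : ∀ i : ℤ, x * (x * y) ^ i * x⁻¹ = (x * y) ^ (-i) := by
    intro i
    rw [← conj_zpow, zpow_neg, ← inv_zpow]
    congr 1
    rw [mul_inv_rev, hx', hy', ← mul_assoc, hxx, one_mul]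
  have hn : Subgroup.zpowers x ≤ Subgroup.normalizer (Subgroup.zpowers (x * y) : Set M) := by
    rw [Subgroup.zpowers_le, Subgroup.mem_normalizer_iff]
    intro d
    constructor
    · intro hd
      obtain ⟨i, hi⟩ := Subgroup.mem_zpowers_iff.1 hd
      rw [← hi, hconj i]
      exact Subgroup.zpow_mem_zpowers _ _
    · intro hd
      obtain ⟨i, hi⟩ := Subgroup.mem_zpowers_iff.1 hd
      have h5 : d = x * (x * y) ^ i * x⁻¹ := by
        rw [hi]
        calc d = (x * x) * d * (x * x) := by rw [hxx]; group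
          _ = x * (x * d * x⁻¹) * x⁻¹ := by rw [hx']; group
      rw [h5, hconj i]
      exact Subgroup.zpow_mem_zpowers _ _
  refine (IsPGroup.to_sup_of_normal_left' hr hx2 hn).to_le ?_
  rw [Subgroup.closure_le]
  intro w hw
  have hxm : x ∈ (Subgroup.zpowers (x * y) ⊔ Subgroup.zpowers x : Subgroup M) :=
    Subgroup.mem_sup_right (Subgroup.mem_zpowers x)
  rcases hw with hw | hw
  · rw [hw]; exact hxm
  · rw [Set.mem_singleton_iff.1 hw]
    have h6 : y = x * (x * y) := by rw [← mul_assoc, hxx, one_mul]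
    have h7 := Subgroup.mul_mem _ hxm (Subgroup.mem_sup_left (T := Subgroup.zpowers x)
      (Subgroup.mem_zpowers (x * y)))
    rwa [← h6] at h7

end ALoop
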