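import Mathlib

/-!
Statements (with sorry, not imported by any result): Baer-Suzuki, Lemma Z of helper68, and the
conclusion used for MP_52f71e.
-/

set_option autoImplicit false

namespace Pool.Agent.H8.SNZ

/-- Baer-Suzuki (Alperin-Lyons proof) -- helper8, file BS.lean -/
theorem baer_suzuki {M : Type*} [Group M] [Finite M] {p : ℕ} [Fact p.Prime] (E : Set M)
    (h2 : ∀ g : M, ∀ x ∈ E, g * x * g⁻¹ ∈ E)
    (h3 : ∀ x ∈ E, ∀ y ∈ E, IsPGroup p (Subgroup.closure ({x, y} : Set M))) :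
    IsPGroup p (Subgroup.closure E) := by sorry

/-- Lemma Z (helper68 (D)) -- file LemmaZ.lean -/
theorem lemma_Z {M : Type*} [Group M] [Finite M] {p : ℕ} [Fact p.Prime] (hp : Odd p) {z : M}
    (hz : z * z = 1) {V : Subgroup M} (hVp : IsPGroup p V)
    (hVc : ∀ a ∈ V, ∀ b ∈ V, a * b = b * a) (hVz : ∀ v ∈ V, z * v * z = v⁻¹)
    (hC : ∀ g : M, ∀ a ∈ V, ∀ b ∈ V,
      ((g * z * g⁻¹) * a * (g * z * g⁻¹)) * b = b * ((g * z * g⁻¹) * a * (g * z * g⁻¹))) (h : M) :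
    IsPGroup p (V ⊔ V.map (MulAut.conj h).toMonoidHom : Subgroup M) := by sorry

/-- Conclusion: `V` lies in a normal `p`-subgroup -- helper8, file Fin.lean -/
theorem lemma_Z_normal {M : Type*} [Group M] [Finite M] {p : ℕ} [Fact p.Prime] (hp : Odd p) {z : M}
    (hz : z * z = 1) {V : Subgroup M} (hVp : IsPGroup p V)
    (hVc : ∀ a ∈ V, ∀ b ∈ V, a * b = b * a) (hVz : ∀ v ∈ V, z * v * z = v⁻¹)
    (hC : ∀ g : M, ∀ a ∈ V, ∀ b ∈ V,
      ((g * z * g⁻¹) * a * (g * z * g⁻¹)) * b = b * ((g * z * g⁻¹) * a * (g * z * g⁻¹))) :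
    ∃ N : Subgroup M, N.Normal ∧ IsPGroup p N ∧ V ≤ N := by sorry

end Pool.Agent.H8.SNZ
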